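import Pool.Agent.J6H97.BVQ.Main

/-!
# Closures of bounded open sets with quasiminimal surface are BV-extension sets

The definitions are in `Pool.Agent.J6H97.BVQ.Defs`.

Outline of the proof.
* For a nonnegative locally Lipschitz function `g` with compact support in an open set where `Ω` is
  quasiminimal, `|D(g χ_Ω)|(X) ≤ (2 K + 2) ∫_Ω lip_a g`. One cuts `Ω` along the level sets of `g`: for
  each `t` there is a level `s` slightly above `t` such that the perimeter created by removing
  `{g ≥ s}` is controlled by the energy of `g` in `Ω ∩ {t < g ≤ t + η}`, and quasiminimality bounds the
  perimeter of `Ω` in `{g > t}` by its perimeter in the layer `{t < g < t + 2 η}` plus this energy. The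
  sum over the levels `t = k η` telescopes.
* Applied to cutoff functions of balls, the same estimate and the Poincare inequality give a lower
  density bound for `Ω` at each point of its closure, so the boundary of `Ω` is a null set.
* The extension is the extension by zero of the restriction to `Ω`; the estimate follows by
  approximation and a Lipschitz partition of unity on the compact closure of `Ω`.
-/

open MeasureTheory
open scoped NNReal

namespace Pool.Agent.Results.MP_2a341d_an.ClosureExtension

open Pool.Agent.J6H97.BVQ

/-- Let `(X, d, μ)` be a PI space and `Ω` a bounded open set with locally `K`-quasiminimal surface,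
of locally finite perimeter. Then the closure of `Ω` is a BV-extension set. -/
theorem result {X : Type*} [MetricSpace X] [CompleteSpace X] [MeasurableSpace X] [BorelSpace X]
    (μ : Measure X) (hPI : IsPI μ) (K : ℝ≥0) (Ω : Set X) (hΩ : IsOpen Ω)
    (hb : Bornology.IsBounded Ω) (hK : IsLocallyQuasiminimal μ K Ω)
    (hper : HasLocallyFinitePerimeter μ Ω) : IsBVExtensionSet μ (closure Ω) :=
  closure_extension hPI hΩ hb hK hper

end Pool.Agent.Results.MP_2a341d_an.ClosureExtension
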